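import Mathlib

namespace Pool.Agent.Results.MP_60c8e6_al.Q2

open MeasureTheory Matrix
open scoped Pointwise

/-- the rotation group of three-space -/
abbrev SO3 : Type := Matrix.specialOrthogonalGroup (Fin 3) ℝ

/-- rotations moving the vector by an angle less than the given one -/
def cap (u : Fin 3 → ℝ) (θ : ℝ) : Set SO3 :=
  {g | Real.arccos (u ⬝ᵥ ((g : Matrix (Fin 3) (Fin 3) ℝ) *ᵥ u)) < θ}

theorem result [MeasurableSpace SO3] [BorelSpace SO3] (μ : Measure SO3) [μ.IsHaarMeasure]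
    [IsProbabilityMeasure μ] :
    ¬ ∀ A : Set SO3, IsOpen A → A.Nonempty → μ.real A < 1 / 2 →
      (μ.real (A * A) = 4 * μ.real A * (1 - μ.real A) ↔
        ∃ (u : Fin 3 → ℝ) (θ : ℝ), u ⬝ᵥ u = 1 ∧ 0 < θ ∧ θ ≤ Real.pi ∧
          μ (symmDiff A (cap u θ)) = 0) := by
  intro H
  have hopen : ∀ u θ, IsOpen (cap u θ) := by
    intro u θ
    apply isOpen_lt _ continuous_const
    apply Real.continuous_arccos.comp
    exact continuous_const.dotProduct (continuous_subtype_val.matrix_mulVec continuous_const)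
  have hone : ∀ u θ, u ⬝ᵥ u = 1 → 0 < θ → (1 : SO3) ∈ cap u θ := by
    intro u θ hu hθ
    simp [cap, hu, hθ]
  have hent : Continuous fun g : SO3 => (g : Matrix (Fin 3) (Fin 3) ℝ) 0 0 :=
    continuous_subtype_val.matrix_elem 0 0
  let e : Fin 3 → ℝ := ![1, 0, 0]
  have he : e ⬝ᵥ e = 1 := by simp [e, dotProduct, Fin.sum_univ_three]
  have hcap : ∀ g : SO3, g ∈ cap e (Real.pi / 3) ↔
      Real.arccos ((g : Matrix (Fin 3) (Fin 3) ℝ) 0 0) < Real.pi / 3 := by
    intro g
    simp [cap, e, dotProduct, mulVec, Fin.sum_univ_three]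
  have hgt : ∀ g : SO3, g ∈ cap e (Real.pi / 3) → 1 / 2 < (g : Matrix (Fin 3) (Fin 3) ℝ) 0 0 := by
    intro g hg
    rw [hcap] at hg
    by_contra hle
    push Not at hle
    have h1 := Real.arccos_le_arccos hle
    have h2 : Real.arccos (1 / 2) = Real.pi / 3 := by
      rw [← Real.cos_pi_div_three]
      exact Real.arccos_cos (by positivity) (by linarith [Real.pi_pos])
    linarith
  let g0 : SO3 := ⟨!![-1, 0, 0; 0, -1, 0; 0, 0, 1], by
    rw [Matrix.mem_specialOrthogonalGroup_iff, Matrix.mem_orthogonalGroup_iff]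
    constructor
    · ext i j
      fin_cases i <;> fin_cases j <;> simp [Matrix.mul_apply, Fin.sum_univ_three]
    · simp [Matrix.det_fin_three]⟩
  let g1 : SO3 := ⟨!![0, -1, 0; 1, 0, 0; 0, 0, 1], by
    rw [Matrix.mem_specialOrthogonalGroup_iff, Matrix.mem_orthogonalGroup_iff]
    constructor
    · ext i j
      fin_cases i <;> fin_cases j <;> simp [Matrix.mul_apply, Fin.sum_univ_three]
    · simp [Matrix.det_fin_three]⟩
  have hL : ∀ h : SO3, ((g0 * h : SO3) : Matrix (Fin 3) (Fin 3) ℝ) 0 0 =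
      - (h : Matrix (Fin 3) (Fin 3) ℝ) 0 0 := by
    intro h
    simp [g0, Matrix.mul_apply, Fin.sum_univ_three]
  have hR : ∀ h : SO3, ((h * g0 : SO3) : Matrix (Fin 3) (Fin 3) ℝ) 0 0 =
      - (h : Matrix (Fin 3) (Fin 3) ℝ) 0 0 := by
    intro h
    simp [g0, Matrix.mul_apply, Fin.sum_univ_three]
  have hgg : g0 * g0 = 1 := by
    apply Subtype.ext
    ext i j
    fin_cases i <;> fin_cases j <;> simp [g0, Matrix.mul_apply, Fin.sum_univ_three]
  set C := cap e (Real.pi / 3) with hC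
  let A : Set SO3 := (fun h => g0 * h) ⁻¹' C
  have hAo : IsOpen A := (hopen _ _).preimage (continuous_const.mul continuous_id)
  have hAC : μ A = μ C := measure_preimage_mul μ g0 C
  have hAC' : μ.real A = μ.real C := by simp [Measure.real, hAC]
  have hAlt : ∀ h ∈ A, (h : Matrix (Fin 3) (Fin 3) ℝ) 0 0 < - (1 / 2) := by
    intro h hh
    have := hgt _ hh
    rw [hL] at this
    linarith
  have hAA : A * A = C * C := by
    ext x
    constructor
    · rintro ⟨a, ha, b, hb, rfl⟩
      refine ⟨a * g0, ?_, g0 * b, hb, ?_⟩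
      · rw [hcap, hR, ← hL, ← hcap]; exact ha
      · simp only []
        rw [mul_assoc, ← mul_assoc g0, hgg, one_mul]
    · rintro ⟨a, ha, b, hb, rfl⟩
      refine ⟨a * g0, ?_, g0 * b, ?_, ?_⟩
      · change g0 * (a * g0) ∈ C
        rw [hcap, hL, hR, neg_neg, ← hcap]; exact ha
      · change g0 * (g0 * b) ∈ C
        rw [← mul_assoc, hgg, one_mul]; exact hb
      · simp only []
        rw [mul_assoc, ← mul_assoc g0, hgg, one_mul]
  have hpi : 0 < Real.pi / 3 := by positivity
  have hhalf : μ.real C < 1 / 2 := by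
    let U : Set SO3 := {h | |(h : Matrix (Fin 3) (Fin 3) ℝ) 0 0| < 1 / 2}
    have hUo : IsOpen U := isOpen_lt hent.abs continuous_const
    have hUn : U.Nonempty := ⟨g1, by simp [U, g1]⟩
    have hUp : 0 < μ.real U :=
      ENNReal.toReal_pos (hUo.measure_pos μ hUn).ne' (measure_ne_top _ _)
    have d1 : Disjoint C A := by
      rw [Set.disjoint_left]
      intro h h1 h2
      have := hgt h h1
      have := hAlt h h2
      linarith
    have d2 : Disjoint (C ∪ A) U := by
      rw [Set.disjoint_left]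
      rintro h (h1 | h1) h2
      · have := hgt h h1
        have := (abs_lt.1 (show |(h : Matrix (Fin 3) (Fin 3) ℝ) 0 0| < 1 / 2 from h2)).2
        linarith
      · have := hAlt h h1
        have := (abs_lt.1 (show |(h : Matrix (Fin 3) (Fin 3) ℝ) 0 0| < 1 / 2 from h2)).1
        linarith
    have e1 := measureReal_union (μ := μ) d1 hAo.measurableSet
    have e2 := measureReal_union (μ := μ) d2 hUo.measurableSet
    have e3 : μ.real ((C ∪ A) ∪ U) ≤ 1 := measureReal_le_one
    linarith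
  have h1 := (H C (hopen _ _) ⟨1, hone _ _ he hpi⟩ hhalf).2
    ⟨e, Real.pi / 3, he, hpi, by linarith [Real.pi_pos], by simp [hC]⟩
  have hAn : A.Nonempty := ⟨g0, by
    change g0 * g0 ∈ C
    rw [hgg]; exact hone _ _ he hpi⟩
  obtain ⟨u, θ, hu, hθ, -, h0⟩ := (H A hAo hAn (hAC' ▸ hhalf)).1 (by rw [hAA, hAC', h1])
  let W : Set SO3 := cap u θ ∩ {h | 0 < (h : Matrix (Fin 3) (Fin 3) ℝ) 0 0}
  have hWo : IsOpen W := (hopen u θ).inter (isOpen_lt continuous_const hent)
  have hWn : W.Nonempty := ⟨1, hone _ _ hu hθ, by simp⟩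
  have hWs : W ⊆ symmDiff A (cap u θ) := by
    rintro h ⟨h1, h2⟩
    refine Or.inr ⟨h1, fun h3 => ?_⟩
    have := hAlt h h3
    have h2' : 0 < (h : Matrix (Fin 3) (Fin 3) ℝ) 0 0 := h2
    linarith
  exact (hWo.measure_pos μ hWn).ne' (measure_mono_null hWs h0)

end Pool.Agent.Results.MP_60c8e6_al.Q2
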